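import Pool.Agent.Helper819.Good
import Pool.Agent.W2helper9.SD.Arith
import Pool.Agent.W2helper9.SD.Curve
import Pool.Agent.W2helper9.SD.Inv
import Pool.Agent.W2helper15.SD.D9
import Pool.Agent.W2helper17.SD.Red
import Pool.Agent.W2helper19.SD.Gen
import Pool.Agent.W2helper19.SD.Span
import Pool.Agent.W2helper78.SD.B23
import Pool.Agent.W2helper85.SD.DN
import Pool.Agent.W2helper92.SD.B22
import Pool.Agent.W4helper65.SD.B32
import Pool.Agent.W4helper65.SD.D26

/-!
# The Shafarevich dimension is the dimension of the moduli space whenever `d ^ N < C(N + d, N)`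

The condition holds for `N = 1` and for `(N, d) = (2, 2), (2, 3), (3, 2)`. In these cases the classes
of morphisms `ℙ^N → ℙ^N` of degree `d` with good reduction outside the primes above `2` are Zariski
dense in `M_d^N`, for every number field. The definitions are in `Pool/Agent/Helper819/DynDefs.lean`.
The proof is explained in `Pool/Agent/W2helper9/SD/Stm.lean`.
-/

set_option autoImplicit false

namespace Pool.Agent.Results.MP_d071c2_nt.MaximalShafarevichDimension

open Pool.Agent.Helper819.Dyn Pool.Agent.W2helper9.SD IsDedekindDomain NumberField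

theorem result (N d : ℕ) (hN : 1 ≤ N) (hd : 2 ≤ d) (h : d ^ N < (N + d).choose N) :
    (∀ (K : IntermediateField ℚ (AlgebraicClosure ℚ)) [NumberField K],
      closure (goodSet N d K {v : HeightOneSpectrum (𝓞 K) | v.valuation K 2 ≠ 1}) = Set.univ) ∧
    shafDim N d = topologicalKrullDim (Moduli (AlgebraicClosure ℚ) N d) := by
  obtain ⟨h22, h23, h32⟩ := cases_all p_curve p_inv Pool.Agent.W2helper19.SD.GEN.p_GEN Pool.Agent.W2helper19.SD.p_SPAN
    Pool.Agent.W2helper92.SD.p_b22 p_b23 Pool.Agent.W4helper65.SD.p_b32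
    Pool.Agent.W4helper65.SD.p_D2 Pool.Agent.W2helper85.SD.p_DN Pool.Agent.W4helper65.SD.p_D6
    Pool.Agent.W2helper15.SD.p_D9
  rcases cases_arith hN hd h with rfl | ⟨rfl, rfl⟩ | ⟨rfl, rfl⟩ | ⟨rfl, rfl⟩
  · exact ⟨fun K _ => goodSet_dense d K, by rw [shafDim_line d hd, krullDim_moduli hd]⟩
  · exact Pool.Agent.W2helper17.SD.p_red 2 2 h22
  · exact Pool.Agent.W2helper17.SD.p_red 2 3 h23
  · exact Pool.Agent.W2helper17.SD.p_red 3 2 h32

end Pool.Agent.Results.MP_d071c2_nt.MaximalShafarevichDimension
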